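import Pool.Agent.Helper93.KS.St3

/-!
# Project KS (MP_77e955_nt): module DYC, the exceptional `n` for one box
-/

set_option autoImplicit false

noncomputable section

namespace Pool.Agent.Helper80.KS

open Finset Filter Topology Pool.Agent.Helper93.KS
open Pool.Agent.Helper15.AB (StMT)
open Pool.Agent.Helper18.TR (StBonf StFLmain StLevel)
open Pool.Agent.Helper9.TW (gm Qs fm)
open Pool.Agent.Helper93.KP (gk vk tk rn gn TK qk StRTS)

/-- few primes divide `n ^ 2 - 4` -/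
private theorem few (n N : ℕ) (hn : 3 ≤ n) (hnN : n ≤ 2 * N) (hN : 2 ≤ N) (T : Finset ℕ)
    (hT : ∀ p ∈ T, p.Prime ∧ (p : ℤ) ∣ (n : ℤ) ^ 2 - 4) : (T.card : ℝ) ≤ 8 * Real.log N := by
  have h4 : 4 ≤ n ^ 2 := by nlinarith
  have hsub : T ⊆ (n ^ 2 - 4).primeFactors := by
    intro p hp
    obtain ⟨h1, h2⟩ := hT p hp
    rw [Nat.mem_primeFactors]
    refine ⟨h1, ?_, ?_⟩
    · have : ((n ^ 2 - 4 : ℕ) : ℤ) = (n : ℤ) ^ 2 - 4 := by
        rw [Nat.cast_sub h4]; push_cast; ring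
      rw [← this] at h2
      exact_mod_cast h2
    · have : 9 ≤ n ^ 2 := by nlinarith
      omega
  have h1 : 2 ^ T.card ≤ n ^ 2 - 4 := by
    have h9 : 9 ≤ n ^ 2 := by nlinarith
    calc 2 ^ T.card ≤ 2 ^ (n ^ 2 - 4).primeFactors.card := Nat.pow_le_pow_right (by norm_num) (card_le_card hsub)
      _ ≤ ∏ p ∈ (n ^ 2 - 4).primeFactors, p := by
          rw [← Finset.prod_const]
          exact Finset.prod_le_prod' fun p hp => (Nat.prime_of_mem_primeFactors hp).two_le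
      _ ≤ n ^ 2 - 4 := Nat.le_of_dvd (by omega) (Nat.prod_primeFactors_dvd _)
  have h2 : 2 ^ T.card ≤ N ^ 4 := by
    have h3 : n ^ 2 ≤ (2 * N) ^ 2 := Nat.pow_le_pow_left hnN 2
    have h5 : (2 * N) ^ 2 ≤ N ^ 4 := by
      have : 2 * N ≤ N ^ 2 := by nlinarith
      calc (2 * N) ^ 2 ≤ (N ^ 2) ^ 2 := Nat.pow_le_pow_left this 2
        _ = N ^ 4 := by ring
    omega
  have h3 : (T.card : ℝ) * Real.log 2 ≤ 4 * Real.log N := by
    have h5 : (2 : ℝ) ^ T.card ≤ (N : ℝ) ^ 4 := by exact_mod_cast h2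
    have h6 := Real.log_le_log (by positivity) h5
    rw [Real.log_pow, Real.log_pow] at h6
    push_cast at h6
    exact h6
  have hl := Real.log_two_gt_d9
  have hc : (0 : ℝ) ≤ T.card := Nat.cast_nonneg _
  nlinarith

/-- the comparison of the two sums -/
private theorem cmp_sum (n N f : ℕ) [NeZero f] (ψ : DirichletCharacter ℂ f) (P : ℝ) (hn : 3 ≤ n) (hnN : n ≤ 2 * N)
    (hN : 2 ≤ N) (hP : 7 ≤ P) (S : Finset ℕ) (hS : ∀ p ∈ S, p.Prime ∧ P ≤ (p : ℝ))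
    (hψ : ∀ p : ℕ, p.Prime → 7 ≤ p → ¬ (p : ℤ) ∣ (n : ℤ) ^ 2 - 4 → ψ (p : ZMod f) = (sx n p : ℂ)) :
    |∑ p ∈ S, sx n p / p| ≤ ‖∑ p ∈ S, ψ (p : ZMod f) / p‖ + 16 * Real.log N / P := by
  have h1 : ((∑ p ∈ S, sx n p / p : ℝ) : ℂ) = ∑ p ∈ S, ψ (p : ZMod f) / p +
      ∑ p ∈ S, ((sx n p : ℂ) - ψ (p : ZMod f)) / p := by
    rw [← Finset.sum_add_distrib]
    push_cast
    refine Finset.sum_congr rfl fun p _ => ?_
    ring
  have h2 : |∑ p ∈ S, sx n p / p| = ‖((∑ p ∈ S, sx n p / p : ℝ) : ℂ)‖ := by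
    rw [Complex.norm_real, Real.norm_eq_abs]
  rw [h2, h1]
  refine (norm_add_le _ _).trans (add_le_add le_rfl ?_)
  have hP0 : 0 < P := by linarith
  obtain ⟨T, hT⟩ : ∃ T : Finset ℕ, T = S.filter (fun p : ℕ => (p : ℤ) ∣ (n : ℤ) ^ 2 - 4) := ⟨_, rfl⟩
  have h3 : ∑ p ∈ S, ((sx n p : ℂ) - ψ (p : ZMod f)) / p = ∑ p ∈ T, ((sx n p : ℂ) - ψ (p : ZMod f)) / p := by
    rw [hT, Finset.sum_filter]
    refine Finset.sum_congr rfl fun p hp => ?_
    split_ifs with h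
    · rfl
    · obtain ⟨hpp, hpP⟩ := hS p hp
      have h7 : 7 ≤ p := by
        have : (7 : ℝ) ≤ p := hP.trans hpP
        exact_mod_cast this
      rw [hψ p hpp h7 h, sub_self, zero_div]
  rw [h3]
  refine (norm_sum_le _ _).trans ?_
  have h4 : ∀ p ∈ T, ‖((sx n p : ℂ) - ψ (p : ZMod f)) / p‖ ≤ 2 / P := by
    intro p hp
    rw [hT, Finset.mem_filter] at hp
    obtain ⟨hpp, hpP⟩ := hS p hp.1
    have hsx : sx n p = 1 := by
      unfold sx
      rw [if_pos hp.2]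
    have h5 : ‖(sx n p : ℂ) - ψ (p : ZMod f)‖ ≤ 2 := by
      refine (norm_sub_le _ _).trans ?_
      have h6 := DirichletCharacter.norm_le_one ψ (p : ZMod f)
      rw [hsx]
      simp only [Complex.ofReal_one, norm_one]
      linarith
    rw [norm_div, Complex.norm_natCast]
    exact div_le_div₀ (by norm_num) h5 hP0 hpP
  refine (Finset.sum_le_card_nsmul _ _ _ h4).trans ?_
  rw [nsmul_eq_mul]
  have h5 : (T.card : ℝ) ≤ 8 * Real.log N := by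
    refine few n N hn hnN hN T ?_
    intro p hp
    rw [hT, Finset.mem_filter] at hp
    exact ⟨(hS p hp.1).1, hp.2⟩
  calc (T.card : ℝ) * (2 / P) ≤ (8 * Real.log N) * (2 / P) := mul_le_mul_of_nonneg_right h5 (by positivity)
    _ = 16 * Real.log N / P := by ring

/-- **Module DYC.** -/
theorem hDYC (hP : StPSI) (hD : StDUA) (hM : Pool.Agent.Helper60.GP.StM2) : StDYC := by
  intro u i η hu hi hη
  obtain ⟨f, hfz, ψ, hψ1, hψ2⟩ := hP
  obtain ⟨m, hm⟩ : ∃ m : ℕ, m = 1200 * u := ⟨_, rfl⟩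
  have hu0 : (0 : ℝ) < u := by exact_mod_cast hu
  have hi1 : (1 : ℝ) ≤ i := by exact_mod_cast hi
  obtain ⟨ω, hω⟩ : ∃ ω : ℝ, ω = 1 / (100 * (u : ℝ)) := ⟨_, rfl⟩
  have hω0 : 0 < ω := by rw [hω]; positivity
  have hiω : 0 < (i : ℝ) * ω := by positivity
  have hab : (i : ℝ) * ω ≤ ((i : ℝ) + 1) * ω := by nlinarith
  have hmi : 12 ≤ (i : ℝ) * ω * m := by
    have : (i : ℝ) * ω * m = 12 * i := by
      rw [hω, hm]
      push_cast
      field_simp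
      ring
    rw [this]; linarith
  obtain ⟨C, hC, hDm⟩ := hD m ((i : ℝ) * ω) (((i : ℝ) + 1) * ω) (by omega) hiω hab hmi
  refine ⟨⌈C / (η / 2) ^ (2 * m)⌉₊, ?_⟩
  have hlog : Real.log (((i : ℝ) + 1) * ω / ((i : ℝ) * ω)) ≤ 7 / 10 := by
    have h1 : ((i : ℝ) + 1) * ω / ((i : ℝ) * ω) = 1 + 1 / i := by field_simp
    have h2 : (1 : ℝ) / i ≤ 1 := by rw [div_le_one (by linarith)]; exact hi1
    have h3 : Real.log (1 + 1 / (i : ℝ)) ≤ Real.log 2 :=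
      Real.log_le_log (by positivity) (by linarith)
    rw [h1]
    have := Real.log_two_lt_d9
    linarith
  obtain ⟨z₀, hz⟩ := hM ((i : ℝ) * ω) (((i : ℝ) + 1) * ω) hiω hab (3 / 10) (by norm_num)
  -- conditions on `N`
  have e1 : ∀ᶠ N : ℕ in atTop, (7 : ℝ) ≤ (N : ℝ) ^ ((i : ℝ) * ω) :=
    ((tendsto_rpow_atTop hiω).comp tendsto_natCast_atTop_atTop).eventually_ge_atTop 7
  have e2 : ∀ᶠ N : ℕ in atTop, Real.log N ≤ η / 32 * (N : ℝ) ^ ((i : ℝ) * ω) := by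
    have h1 := (isLittleO_log_rpow_atTop hiω).def (c := η / 32) (by positivity)
    have h2 := tendsto_natCast_atTop_atTop (R := ℝ) |>.eventually h1
    filter_upwards [h2] with N hN
    rw [Real.norm_eq_abs, Real.norm_eq_abs] at hN
    rw [abs_of_nonneg (by positivity : (0 : ℝ) ≤ (N : ℝ) ^ ((i : ℝ) * ω))] at hN
    exact (le_abs_self _).trans hN
  have e3 : ∀ᶠ N : ℕ in atTop, z₀ ≤ (N : ℝ) :=
    tendsto_natCast_atTop_atTop.eventually_ge_atTop z₀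
  filter_upwards [e1, e2, e3, hDm, eventually_ge_atTop 3] with N h1 h2 h3 h4 hN3
  rw [← hω]
  have hN0 : (0 : ℝ) < N := by
    have : 0 < N := by omega
    exact_mod_cast this
  have hP0 : 0 < (N : ℝ) ^ ((i : ℝ) * ω) := by linarith
  obtain ⟨B, hB⟩ : ∃ B : Finset ℕ, B = bq N ω i := ⟨_, rfl⟩
  rw [← hB]
  have hBp : ∀ p ∈ B, p.Prime ∧ (N : ℝ) ^ ((i : ℝ) * ω) ≤ (p : ℝ) ∧
      (p : ℝ) ≤ (N : ℝ) ^ (((i : ℝ) + 1) * ω) := by
    intro p hp
    rw [hB] at hp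
    unfold bq at hp
    rw [Finset.mem_filter, Finset.mem_range] at hp
    obtain ⟨hp1, hp2, hp3⟩ := hp
    exact ⟨hp2, hp3, (Nat.lt_ceil.1 hp1).le⟩
  have hB1 : ∑ p ∈ B, (1 : ℝ) / p ≤ 1 := by
    have h5 := (abs_le.1 (hz N h3)).2
    rw [hB]
    unfold bq
    linarith
  obtain ⟨E, hE⟩ : ∃ E : Finset ℕ, E = (Ioc N (2 * N)).filter
    (fun n => η / 2 ≤ ‖∑ p ∈ B, ψ n (p : ZMod (f n)) / p‖) := ⟨_, rfl⟩
  have hsub : (Ioc N (2 * N)).filter (fun n => η ≤ |∑ p ∈ B, sx n p / p|) ⊆ E := by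
    intro n hn
    rw [Finset.mem_filter] at hn
    obtain ⟨hnN, hn1⟩ := hn
    have hnN' := Finset.mem_Ioc.1 hnN
    have := hfz n
    have h5 := cmp_sum n N (f n) (ψ n) ((N : ℝ) ^ ((i : ℝ) * ω)) (by omega) hnN'.2 (by omega) h1 B
      (fun p hp => ⟨(hBp p hp).1, (hBp p hp).2.1⟩) (hψ1 n (by omega)).2.2
    have h6 : 16 * Real.log N / (N : ℝ) ^ ((i : ℝ) * ω) ≤ η / 2 := by
      rw [div_le_iff₀ hP0]
      linarith
    rw [hE, Finset.mem_filter]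
    exact ⟨hnN, by linarith⟩
  have h5 := h4 (η / 2) B E f hfz ψ (by linarith) hBp hB1 ?_ ?_ ?_ ?_
  · have h6 : (E.card : ℝ) ≤ C / (η / 2) ^ (2 * m) := by
      rw [le_div_iff₀ (by positivity)]
      exact h5
    have h7 : (E.card : ℝ) ≤ (⌈C / (η / 2) ^ (2 * m)⌉₊ : ℝ) := h6.trans (Nat.le_ceil _)
    exact (Finset.card_le_card hsub).trans (by exact_mod_cast h7)
  · intro n hn
    rw [hE, Finset.mem_filter, Finset.mem_Ioc] at hn
    have h6 := hψ1 n (by omega)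
    refine ⟨h6.1, h6.2.1.trans ?_⟩
    have h7 : n ^ 2 ≤ (2 * N) ^ 2 := Nat.pow_le_pow_left hn.1.2 2
    nlinarith
  · have h6 : E.card ≤ (Ioc N (2 * N)).card := by
      rw [hE]
      exact Finset.card_filter_le _ _
    rw [Nat.card_Ioc] at h6
    omega
  · intro n hn n' hn' hne
    rw [hE, Finset.mem_filter] at hn hn'
    exact hψ2 N hN3 n hn.1 n' hn'.1 hne
  · intro n hn
    rw [hE, Finset.mem_filter] at hn
    exact hn.2

end Pool.Agent.Helper80.KS
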