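import Pool.Agent.Helper93.KS.St

/-!
# Project KS, module EX1: densities for `n` in `(N, 2 N]`
-/

set_option autoImplicit false

noncomputable section

namespace Pool.Agent.Helper80.KS

open Finset Filter Topology Pool.Agent.Helper93.KS
open Pool.Agent.Helper15.AB (ee Kl StDB StMT)
open Pool.Agent.Helper9.TW (gm Qs fm StMER StC9)
open Pool.Agent.Helper18.TR (StLevel)
open Pool.Agent.Helper93.KP (gk vk tk rn gn TK qk StC8P StVLP StRTS StWEI)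

private theorem mem_bq {a i p : ℕ} {ω : ℝ} : p ∈ bq a ω i ↔
    (p : ℝ) < (a : ℝ) ^ (((i : ℝ) + 1) * ω) ∧ p.Prime ∧ (a : ℝ) ^ ((i : ℝ) * ω) ≤ (p : ℝ) := by
  unfold bq
  rw [mem_filter, mem_range, Nat.lt_ceil]

private theorem rn_le (hR : StRTS) {n p : ℕ} (hp : p.Prime) (h7 : 7 ≤ p) :
    (rn n p : ℝ) ≤ 1 + sx n p := by
  have h1 : (rn n p : ℝ) ≤ 2 := by exact_mod_cast hR n p hp h7
  unfold sx
  split_ifs
  · linarith
  · linarith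

private theorem sx_abs (hR : StRTS) {n p : ℕ} (hp : p.Prime) (h7 : 7 ≤ p) : |sx n p| ≤ 1 := by
  have h1 : (rn n p : ℝ) ≤ 2 := by exact_mod_cast hR n p hp h7
  have h2 : (0 : ℝ) ≤ rn n p := Nat.cast_nonneg _
  unfold sx
  split_ifs
  · rw [abs_one]
  · rw [abs_le]
    constructor <;> linarith

/-- windows -/
private theorem win (hM : Pool.Agent.Helper60.GP.StM2) {x δ : ℝ} (hx : 0 < x) (hδ : 0 < δ) :
    ∀ᶠ N : ℕ in atTop, ∑ p ∈ (range ⌈(N : ℝ) ^ (x * (1 + δ))⌉₊).filter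
      (fun p : ℕ => p.Prime ∧ (N : ℝ) ^ x ≤ p), (1 : ℝ) / p ≤ 2 * δ := by
  obtain ⟨z₀, hz⟩ := hM x (x * (1 + δ)) hx (by nlinarith) δ hδ
  have h1 : ∀ᶠ N : ℕ in atTop, z₀ ≤ (N : ℝ) :=
    tendsto_natCast_atTop_atTop.eventually_ge_atTop z₀
  filter_upwards [h1] with N hN
  have h2 := (abs_le.1 (hz N hN)).2
  have h3 : Real.log (x * (1 + δ) / x) ≤ δ := by
    have h4 : x * (1 + δ) / x = 1 + δ := by field_simp
    rw [h4]
    have := Real.log_le_sub_one_of_pos (show (0 : ℝ) < 1 + δ by linarith)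
    linarith
  linarith

/-- comparison of the boxes of `n` and `N` -/
private theorem cmp {N n i : ℕ} {ω δ : ℝ} (hω : 0 < ω) (hN : 1 ≤ N)
    (h2 : 2 ≤ (N : ℝ) ^ δ) (hn : n ∈ Ioc N (2 * N)) :
    bq n ω i \ bq N ω i ⊆ (range ⌈(N : ℝ) ^ ((((i : ℝ) + 1) * ω) * (1 + δ))⌉₊).filter
      (fun p : ℕ => p.Prime ∧ (N : ℝ) ^ (((i : ℝ) + 1) * ω) ≤ p) ∧
    bq N ω i \ bq n ω i ⊆ (range ⌈(N : ℝ) ^ (((i : ℝ) * ω) * (1 + δ))⌉₊).filter
      (fun p : ℕ => p.Prime ∧ (N : ℝ) ^ ((i : ℝ) * ω) ≤ p) := by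
  rw [mem_Ioc] at hn
  have hN0 : (0 : ℝ) < N := by exact_mod_cast hN
  have hNn : (N : ℝ) ≤ n := by exact_mod_cast hn.1.le
  have hn0 : (0 : ℝ) < n := lt_of_lt_of_le hN0 hNn
  have hn2 : (n : ℝ) ≤ (N : ℝ) ^ (1 + δ) := by
    have h3 : (n : ℝ) ≤ 2 * N := by exact_mod_cast hn.2
    rw [Real.rpow_add hN0, Real.rpow_one]
    nlinarith
  have key : ∀ x : ℝ, 0 ≤ x → (N : ℝ) ^ x ≤ (n : ℝ) ^ x ∧
      (n : ℝ) ^ x ≤ (N : ℝ) ^ (x * (1 + δ)) := by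
    intro x hx
    refine ⟨Real.rpow_le_rpow hN0.le hNn hx, ?_⟩
    rw [mul_comm x, Real.rpow_mul hN0.le]
    exact Real.rpow_le_rpow hn0.le hn2 hx
  have hi : (0 : ℝ) ≤ (i : ℝ) := Nat.cast_nonneg _
  obtain ⟨k1, k2⟩ := key ((i : ℝ) * ω) (mul_nonneg hi hω.le)
  obtain ⟨k3, k4⟩ := key (((i : ℝ) + 1) * ω) (mul_nonneg (by linarith) hω.le)
  constructor
  · intro p hp
    rw [Finset.mem_sdiff, mem_bq, mem_bq] at hp
    obtain ⟨⟨h5, h6, h7⟩, h8⟩ := hp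
    rw [mem_filter, mem_range, Nat.lt_ceil]
    refine ⟨lt_of_lt_of_le h5 k4, h6, ?_⟩
    by_contra h9
    push Not at h9
    exact h8 ⟨h9, h6, k1.trans h7⟩
  · intro p hp
    rw [Finset.mem_sdiff, mem_bq, mem_bq] at hp
    obtain ⟨⟨h5, h6, h7⟩, h8⟩ := hp
    rw [mem_filter, mem_range, Nat.lt_ceil]
    refine ⟨?_, h6, h7⟩
    by_contra h9
    push Not at h9
    exact h8 ⟨lt_of_lt_of_le h5 k3, h6, k2.trans h9⟩

/-- **Module EX1.** -/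
theorem hEX1 (hM : Pool.Agent.Helper60.GP.StM2) (hR : StRTS) : StEX1 := by
  intro u i η hu hi hη
  have hu0 : (0 : ℝ) < u := by exact_mod_cast hu
  have hi0 : (0 : ℝ) < i := by
    have : 0 < i := by omega
    exact_mod_cast this
  set ω : ℝ := 1 / (100 * u) with hωdef
  have hω : 0 < ω := by positivity
  have hx1 : 0 < (i : ℝ) * ω := by positivity
  have hx2 : 0 < ((i : ℝ) + 1) * ω := by positivity
  have hx12 : (i : ℝ) * ω ≤ ((i : ℝ) + 1) * ω := by nlinarith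
  have hlog : Real.log (((i : ℝ) + 1) * ω / ((i : ℝ) * ω)) = gm i := by
    unfold gm
    congr 1
    field_simp
  -- box sums
  have hbox : ∀ ε : ℝ, 0 < ε → ∃ z₀ : ℝ, ∀ n : ℕ, z₀ ≤ (n : ℝ) →
      ∑ p ∈ bq n ω i, (1 : ℝ) / p ≤ gm i + ε := by
    intro ε hε
    obtain ⟨z₀, hz⟩ := hM ((i : ℝ) * ω) (((i : ℝ) + 1) * ω) hx1 hx12 ε hε
    refine ⟨z₀, fun n hn => ?_⟩
    have h2 := (abs_le.1 (hz n hn)).2
    rw [hlog] at h2
    unfold bq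
    linarith
  have hgm : gm i ≤ 1 / 50 := by
    unfold gm
    have h1 : ((i : ℝ) + 1) / i = 1 + 1 / i := by field_simp
    rw [h1]
    have h2 := Real.log_le_sub_one_of_pos (show (0 : ℝ) < 1 + 1 / i by positivity)
    have h3 : (1 : ℝ) / i ≤ 1 / 50 := by
      apply one_div_le_one_div_of_le (by norm_num)
      exact_mod_cast hi
    linarith
  obtain ⟨z₁, hz₁⟩ := hbox (1 / 2) (by norm_num)
  obtain ⟨z₂, hz₂⟩ := hbox (η / 2) (by linarith)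
  have hδ : 0 < η / 8 := by linarith
  have e1 : ∀ᶠ N : ℕ in atTop, z₁ ≤ (N : ℝ) :=
    tendsto_natCast_atTop_atTop.eventually_ge_atTop z₁
  have e2 : ∀ᶠ N : ℕ in atTop, z₂ ≤ (N : ℝ) :=
    tendsto_natCast_atTop_atTop.eventually_ge_atTop z₂
  have e3 : ∀ᶠ N : ℕ in atTop, (7 : ℝ) ≤ (N : ℝ) ^ ((i : ℝ) * ω) :=
    ((tendsto_rpow_atTop hx1).comp tendsto_natCast_atTop_atTop).eventually_ge_atTop 7
  have e4 : ∀ᶠ N : ℕ in atTop, (2 : ℝ) ≤ (N : ℝ) ^ (η / 8) :=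
    ((tendsto_rpow_atTop hδ).comp tendsto_natCast_atTop_atTop).eventually_ge_atTop 2
  filter_upwards [e1, e2, e3, e4, win hM hx1 hδ, win hM hx2 hδ, eventually_ge_atTop 1]
    with N h1 h2 h3 h4 h5 h6 h7
  have hN0 : (0 : ℝ) < N := by exact_mod_cast h7
  refine ⟨by have := hz₁ N h1; linarith, ?_⟩
  intro n hn
  obtain ⟨c1, c2⟩ := cmp (i := i) hω h7 h4 hn
  have hNn : (N : ℝ) ≤ n := by exact_mod_cast (mem_Ioc.1 hn).1.le
  have hn7 : (7 : ℝ) ≤ (n : ℝ) ^ ((i : ℝ) * ω) :=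
    h3.trans (Real.rpow_le_rpow hN0.le hNn hx1.le)
  have m1 : ∀ p ∈ bq n ω i, p.Prime ∧ 7 ≤ p := by
    intro p hp
    rw [mem_bq] at hp
    exact ⟨hp.2.1, by exact_mod_cast hn7.trans hp.2.2⟩
  have m2 : ∀ p ∈ bq N ω i, p.Prime ∧ 7 ≤ p := by
    intro p hp
    rw [mem_bq] at hp
    exact ⟨hp.2.1, by exact_mod_cast h3.trans hp.2.2⟩
  have hb : ∀ p : ℕ, p.Prime → 7 ≤ p → |sx n p / p| ≤ 1 / (p : ℝ) := by
    intro p hp hp7
    have hp0 : (0 : ℝ) < p := by exact_mod_cast hp.pos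
    rw [abs_div, abs_of_pos hp0]
    exact div_le_div_of_nonneg_right (sx_abs hR hp hp7) hp0.le
  -- the sum for `n`
  have s1 : Gb n ω (gn n) i ≤ ∑ p ∈ bq n ω i, (1 : ℝ) / p + ∑ p ∈ bq n ω i, sx n p / p := by
    unfold Gb
    rw [← sum_add_distrib]
    apply sum_le_sum
    intro p hp
    obtain ⟨q1, q2⟩ := m1 p hp
    have hp0 : (0 : ℝ) < p := by exact_mod_cast q1.pos
    unfold Pool.Agent.Helper93.KP.gn
    rw [← add_div]
    exact div_le_div_of_nonneg_right (rn_le hR q1 q2) hp0.le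
  have s2 := hz₂ n (h2.trans hNn)
  have s3 : ∑ p ∈ bq n ω i, sx n p / (p : ℝ) - ∑ p ∈ bq N ω i, sx n p / (p : ℝ) =
      ∑ p ∈ bq n ω i \ bq N ω i, sx n p / (p : ℝ) -
        ∑ p ∈ bq N ω i \ bq n ω i, sx n p / (p : ℝ) :=
    (sum_sdiff_sub_sum_sdiff).symm
  have s4 : ∑ p ∈ bq n ω i \ bq N ω i, sx n p / (p : ℝ) ≤ 2 * (η / 8) := by
    refine le_trans ?_ h6
    refine le_trans ?_ (sum_le_sum_of_subset_of_nonneg c1 fun p _ _ => by positivity)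
    apply sum_le_sum
    intro p hp
    obtain ⟨q1, q2⟩ := m1 p (Finset.mem_sdiff.1 hp).1
    exact (le_abs_self _).trans (hb p q1 q2)
  have s5 : - ∑ p ∈ bq N ω i \ bq n ω i, sx n p / (p : ℝ) ≤ 2 * (η / 8) := by
    refine le_trans ?_ h5
    refine le_trans ?_ (sum_le_sum_of_subset_of_nonneg c2 fun p _ _ => by positivity)
    rw [← sum_neg_distrib]
    apply sum_le_sum
    intro p hp
    obtain ⟨q1, q2⟩ := m2 p (Finset.mem_sdiff.1 hp).1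
    exact (neg_le_abs _).trans (hb p q1 q2)
  have s6 := le_abs_self (∑ p ∈ bq N ω i, sx n p / (p : ℝ))
  linarith

end Pool.Agent.Helper80.KS
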